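import Pool.Agent.LD.L.Defs
import Pool.Agent.H73.AL.Extract
import Pool.Agent.H73.DU.RatNice

/-!
# TS-Defs: spans of marks, fields with even local degrees above `V`

Paper: team store `ts_paper.md`.
-/

namespace Pool.Agent.TS

open NumberField IsDedekindDomain Pool.Agent.H73.DU Pool.Agent.H73.AL Pool.Agent.LD

section group

variable {G : Type} [Group G]

/-- the span of the marks of the subgroups in `C` -/
def RC (C : Set (Subgroup G)) : AddSubgroup (Subgroup G → ℤ) :=
  AddSubgroup.closure {f | ∃ H ∈ C, f = pc H}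

/-- the span of twice the marks, of the marks of the subgroups in `C` of index `2` in another
subgroup, and of the functions vanishing on `𝒰` -/
def MC (C : Set (Subgroup G)) (𝒰 : Set (Subgroup G)) : AddSubgroup (Subgroup G → ℤ) :=
  AddSubgroup.closure {f | (∃ H ∈ C, f = (2 : ℤ) • pc H) ∨
    (∃ H ∈ C, (∃ Y : Subgroup G, H ≤ Y ∧ H.relIndex Y = 2) ∧ f = pc H) ∨ ∀ U ∈ 𝒰, f U = 0}

/-- a class of subgroups of finite index, stable under `H, K ↦ H ⊓ b⁻¹ K b` -/
structure Cls (C : Set (Subgroup G)) : Prop where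
  fin : ∀ H ∈ C, Finite (G ⧸ H)
  inf : ∀ H ∈ C, ∀ K ∈ C, ∀ b : G, H ⊓ cj b K ∈ C

end group

/-- all local degrees of `F` above the primes of `V` outside `T` are even -/
def EvV (V T : Finset ℕ) (F : Type) [Field F] [NumberField F] : Prop :=
  ∀ p ∈ V, p.Prime → p ∉ T → ∀ w : HeightOneSpectrum (𝓞 F), ((p : ℕ) : 𝓞 F) ∈ w.asIdeal →
    2 ∣ locDeg ℚ w

/-- the number fields with an embedding whose stabilizer is contained in `H` have even local
degrees -/
def EvG (V T : Finset ℕ) (H : Subgroup GQ) : Prop :=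
  ∀ (F : NF) (ψ : F.F →+* AlgebraicClosure ℚ), stb ψ ≤ H → EvV V T F.F

/-- the span of the marks of the open subgroups of index divisible by `n`, at most `B`, with even
local degrees, and of the functions vanishing on `famT T` -/
def CL (V T : Finset ℕ) (n B : ℕ) : AddSubgroup (Subgroup GQ → ℤ) :=
  AddSubgroup.closure {f | (∃ H : Subgroup GQ, IsOpen (H : Set GQ) ∧ n ∣ H.index ∧ H.index ≤ B ∧
    EvG V T H ∧ f = pc H) ∨ ∀ U ∈ famT T, f U = 0}

theorem EvG.mono {V T : Finset ℕ} {H H' : Subgroup GQ} (h : EvG V T H) (hle : H' ≤ H) :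
    EvG V T H' := fun F ψ hψ => h F ψ (hψ.trans hle)

theorem EvG.cj {V T : Finset ℕ} {H : Subgroup GQ} (h : EvG V T H) (b : GQ) :
    EvG V T (cj b H) := by
  intro F ψ hψ
  refine h F (b • ψ) ?_
  intro g hg
  have h1 : b⁻¹ * g * b ∈ stb ψ := by
    refine MulAction.mem_stabilizer_iff.2 ?_
    have h2 : g • (b • ψ) = b • ψ := MulAction.mem_stabilizer_iff.1 hg
    rw [mul_smul, mul_smul, h2, inv_smul_smul]
  obtain ⟨u, hu, hu'⟩ := mem_cj_iff.1 (hψ h1)
  have h3 : u = g := by
    have h4 : u = b * (b⁻¹ * u * b) * b⁻¹ := by group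
    rw [h4, hu']
    group
  rw [← h3]
  exact hu

/-- bound for the index of the group of the field `M` -/
def bM (n : ℕ) : ℕ := (n ^ 2).factorial

/-- bound for the degrees -/
def bC (n : ℕ) : ℕ := 4 * (bM n * 2 ^ bM n)

end Pool.Agent.TS
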